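import Pool.Agent.Lib.MP_5c394f_nt.Trig

/-!
Cumulants: additivity under factorisation of low moments, and the cumulants of a cosine.
-/

set_option autoImplicit false

open MeasureTheory Set ProbabilityTheory
open scoped Pointwise Real

namespace Pool.Agent.Lib.MP_5c394f_nt

theorem integrableExpSet_univ {X : ℝ → ℝ} (hX : Continuous X) :
    integrableExpSet X leb = univ := by
  ext t
  simp only [mem_univ, iff_true]
  exact integrable_of_continuous (f := fun ω => Real.exp (t * X ω)) (by fun_prop)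

theorem mgf_contDiffAt {X : ℝ → ℝ} (hX : Continuous X) (m : ℕ) (t : ℝ) :
    ContDiffAt ℝ m (mgf X leb) t :=
  (analyticAt_mgf (by rw [integrableExpSet_univ hX]; simp)).contDiffAt

theorem mgf_pos_of_continuous {X : ℝ → ℝ} (hX : Continuous X) (t : ℝ) : 0 < mgf X leb t :=
  mgf_pos (integrable_of_continuous (f := fun ω => Real.exp (t * X ω)) (by fun_prop))

theorem iteratedDeriv_mgf_eq {X : ℝ → ℝ} (hX : Continuous X) (j : ℕ) :
    iteratedDeriv j (mgf X leb) 0 = ∫ ω, X ω ^ j ∂leb := by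
  rw [iteratedDeriv_mgf_zero (by rw [integrableExpSet_univ hX]; simp)]
  rfl

theorem iteratedDeriv_log_congr {f g : ℝ → ℝ} {m : ℕ} (hf : ContDiffAt ℝ m f 0)
    (hg : ContDiffAt ℝ m g 0) (hf0 : f 0 ≠ 0)
    (h : ∀ j ≤ m, iteratedDeriv j f 0 = iteratedDeriv j g 0) :
    iteratedDeriv m (Real.log ∘ f) 0 = iteratedDeriv m (Real.log ∘ g) 0 := by
  have h0 : f 0 = g 0 := by simpa using h 0 (Nat.zero_le _)
  rw [iteratedDeriv_comp_eq_sum_orderedFinpartition (n := m)
      (Real.contDiffAt_log.mpr hf0) hf le_rfl,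
    iteratedDeriv_comp_eq_sum_orderedFinpartition (n := m)
      (Real.contDiffAt_log.mpr (h0 ▸ hf0)) hg le_rfl]
  refine Finset.sum_congr rfl fun c _ => ?_
  rw [h0]
  congr 1
  exact Finset.prod_congr rfl fun j _ => h _ (c.partSize_le j)

theorem cumulant_add {X Y : ℝ → ℝ} (hX : Continuous X) (hY : Continuous Y) (m : ℕ)
    (h : ∀ i l, i + l ≤ m →
      ∫ ω, X ω ^ i * Y ω ^ l ∂leb = (∫ ω, X ω ^ i ∂leb) * ∫ ω, Y ω ^ l ∂leb) :
    iteratedDeriv m (cgf (fun ω => X ω + Y ω) leb) 0 =
      iteratedDeriv m (cgf X leb) 0 + iteratedDeriv m (cgf Y leb) 0 := by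
  have hXY : Continuous fun ω => X ω + Y ω := hX.add hY
  have e1 : cgf (fun ω => X ω + Y ω) leb = Real.log ∘ mgf (fun ω => X ω + Y ω) leb := rfl
  have e2 : Real.log ∘ (mgf X leb * mgf Y leb) = cgf X leb + cgf Y leb := by
    ext t
    simp only [Function.comp_apply, Pi.mul_apply, Pi.add_apply, cgf]
    exact Real.log_mul (mgf_pos_of_continuous hX t).ne' (mgf_pos_of_continuous hY t).ne'
  have c1 : ContDiffAt ℝ m (cgf X leb) 0 :=
    (mgf_contDiffAt hX m 0).log (mgf_pos_of_continuous hX 0).ne'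
  have c2 : ContDiffAt ℝ m (cgf Y leb) 0 :=
    (mgf_contDiffAt hY m 0).log (mgf_pos_of_continuous hY 0).ne'
  rw [← iteratedDeriv_add c1 c2, ← e2, e1]
  apply iteratedDeriv_log_congr (mgf_contDiffAt hXY m 0)
    ((mgf_contDiffAt hX m 0).mul (mgf_contDiffAt hY m 0)) (mgf_pos_of_continuous hXY 0).ne'
  intro j hj
  rw [iteratedDeriv_fun_mul (mgf_contDiffAt hX j 0) (mgf_contDiffAt hY j 0),
    iteratedDeriv_mgf_eq hXY]
  simp only [add_pow]
  rw [integral_finsetSum _ fun i _ => integrable_of_continuous (by fun_prop)]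
  refine Finset.sum_congr rfl fun i hi => ?_
  have hi' : i ≤ j := Nat.lt_succ_iff.mp (Finset.mem_range.mp hi)
  rw [integral_mul_const, h i (j - i) (by omega), iteratedDeriv_mgf_eq hX,
    iteratedDeriv_mgf_eq hY]
  ring

theorem integral_cos_pow_step (a : ℕ) (ha : 0 < a) (l : ℕ) :
    ∫ ω, Real.cos (2 * π * a * ω) ^ (l + 2) ∂leb =
      (l + 1) / (l + 2) * ∫ ω, Real.cos (2 * π * a * ω) ^ l ∂leb := by
  have hc : (2 * π * a : ℝ) ≠ 0 := by
    have := Real.pi_pos
    positivity
  rw [integral_leb, integral_leb,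
    intervalIntegral.integral_comp_mul_left (fun x => Real.cos x ^ (l + 2)) hc,
    intervalIntegral.integral_comp_mul_left (fun x => Real.cos x ^ l) hc, integral_cos_pow]
  have h1 : Real.sin (2 * π * a * 1) = 0 := by
    rw [show 2 * π * a * 1 = ((2 * a : ℕ) : ℝ) * π by push_cast; ring]
    exact Real.sin_nat_mul_pi _
  rw [h1]
  simp only [mul_zero, Real.sin_zero, sub_self, zero_div, zero_add, smul_eq_mul]
  ring

theorem integral_cos_pow_odd (a : ℕ) (ha : 0 < a) (j : ℕ) :
    ∫ ω, Real.cos (2 * π * a * ω) ^ (2 * j + 1) ∂leb = 0 := by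
  induction j with
  | zero =>
    have hc : (2 * π * a : ℝ) ≠ 0 := by
      have := Real.pi_pos
      positivity
    rw [integral_leb,
      intervalIntegral.integral_comp_mul_left (fun x => Real.cos x ^ (2 * 0 + 1)) hc]
    have h1 : Real.sin (2 * π * a * 1) = 0 := by
      rw [show 2 * π * a * 1 = ((2 * a : ℕ) : ℝ) * π by push_cast; ring]
      exact Real.sin_nat_mul_pi _
    simp only [mul_zero, zero_add, pow_one, integral_cos, h1, Real.sin_zero, sub_self,
      smul_zero]
  | succ j ih =>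
    rw [show 2 * (j + 1) + 1 = (2 * j + 1) + 2 by ring, integral_cos_pow_step a ha, ih, mul_zero]

theorem integral_cos_pow_even (a : ℕ) (ha : 0 < a) (j : ℕ) :
    ∫ ω, Real.cos (2 * π * a * ω) ^ (2 * j) ∂leb =
      (2 * j).factorial / (2 ^ (2 * j) * (j.factorial : ℝ) ^ 2) := by
  induction j with
  | zero => simp
  | succ j ih =>
    rw [show 2 * (j + 1) = (2 * j) + 2 by ring, integral_cos_pow_step a ha, ih,
      Nat.factorial_succ, Nat.factorial_succ, Nat.factorial_succ]
    push_cast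
    field_simp
    ring

theorem mgf_cos (a : ℕ) (ha : 0 < a) (t : ℝ) :
    mgf (fun ω => Real.cos (2 * π * a * ω)) leb t =
      ∑' j : ℕ, (t / 2) ^ (2 * j) / (j.factorial : ℝ) ^ 2 := by
  have h1 : HasSum (fun l : ℕ => ∫ ω, (t * Real.cos (2 * π * a * ω)) ^ l / l.factorial ∂leb)
      (∫ ω, (∑' l : ℕ, (t * Real.cos (2 * π * a * ω)) ^ l / l.factorial) ∂leb) := by
    apply hasSum_integral_of_summable_integral_norm
      (F := fun (l : ℕ) (ω : ℝ) => (t * Real.cos (2 * π * a * ω)) ^ l / l.factorial)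
    · intro l
      exact integrable_of_continuous (by fun_prop)
    · refine Summable.of_nonneg_of_le (fun l => integral_nonneg fun ω => norm_nonneg _)
        (fun l => ?_) (Real.summable_pow_div_factorial |t|)
      have : ∫ _ω : ℝ, |t| ^ l / (l.factorial : ℝ) ∂leb = |t| ^ l / l.factorial := by simp
      rw [← this]
      apply integral_mono (integrable_of_continuous (by fun_prop)) (integrable_const _)
      intro ω
      simp only [norm_div, norm_pow, norm_mul, Real.norm_eq_abs, Nat.abs_cast]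
      gcongr
      exact mul_le_of_le_one_right (abs_nonneg _) (Real.abs_cos_le_one _)
  have h2 : (∫ ω, (∑' l : ℕ, (t * Real.cos (2 * π * a * ω)) ^ l / l.factorial) ∂leb) =
      mgf (fun ω => Real.cos (2 * π * a * ω)) leb t := by
    simp only [mgf, Real.exp_eq_exp_ℝ, NormedSpace.exp_eq_tsum_div]
  rw [h2] at h1
  have h3 : ∀ l : ℕ, ∫ ω, (t * Real.cos (2 * π * a * ω)) ^ l / l.factorial ∂leb =
      t ^ l / l.factorial * ∫ ω, Real.cos (2 * π * a * ω) ^ l ∂leb := by
    intro l
    rw [← integral_const_mul]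
    congr 1
    ext ω
    ring
  simp only [h3] at h1
  have hinj : Function.Injective fun j : ℕ => 2 * j := fun x y h => by
    simpa using h
  rw [← hinj.hasSum_iff] at h1
  · rw [← h1.tsum_eq]
    congr 1
    ext j
    simp only [Function.comp_apply, integral_cos_pow_even a ha, div_pow]
    field_simp
  · intro l hl
    obtain ⟨j, rfl | rfl⟩ := Nat.even_or_odd' l
    · exact absurd ⟨j, rfl⟩ hl
    · rw [integral_cos_pow_odd a ha, mul_zero]

end Pool.Agent.Lib.MP_5c394f_nt
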