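import Mathlib

/-!
Greedy construction of a sequence with ratio limit `η` avoiding all short linear relations.
-/

set_option autoImplicit false

open Filter Topology Finset
open scoped Pointwise

namespace Pool.Agent.Lib.MP_5c394f_nt

theorem exists_step (η : ℝ) (hη : 0 ≤ η) (x : ℕ) (F : Finset ℤ) (m : ℕ) :
    ∃ y : ℕ, η * x < y ∧ (y : ℝ) ≤ η * x + 1 + m * (F.card : ℝ) ^ m ∧
      ∀ c : ℤ, 1 ≤ c → c ≤ m → c * y ∉ m • F := by
  classical
  set N := m * F.card ^ m with hN
  set B : Finset ℕ := ((Icc (1 : ℤ) m) ×ˢ (m • F)).image fun p => (p.2 / p.1).toNat with hB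
  have hBc : B.card ≤ N := by
    refine card_image_le.trans ?_
    rw [card_product, Int.card_Icc]
    simp only [add_sub_cancel_right, Int.toNat_natCast]
    exact Nat.mul_le_mul_left _ Finset.card_nsmul_le
  set s := ⌊η * x⌋₊ + 1 with hs
  have hW : B.card < (Icc s (s + N)).card := by
    rw [Nat.card_Icc]; omega
  obtain ⟨y, hy, hyB⟩ := exists_mem_notMem_of_card_lt_card hW
  rw [mem_Icc] at hy
  have h1 : η * x < s := by rw [hs]; push_cast; exact Nat.lt_floor_add_one _
  have h2 : (s : ℝ) ≤ η * x + 1 := by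
    rw [hs]; push_cast
    have := Nat.floor_le (show 0 ≤ η * x by positivity)
    linarith
  refine ⟨y, h1.trans_le (by exact_mod_cast hy.1), ?_, ?_⟩
  · have : (y : ℝ) ≤ s + N := by exact_mod_cast hy.2
    rw [hN] at this
    push_cast at this
    linarith
  · intro c hc1 hcm hmem
    apply hyB
    rw [hB, mem_image]
    refine ⟨(c, c * y), ?_, ?_⟩
    · simp [hc1, hcm, hmem]
    · simp only
      rw [Int.mul_ediv_cancel_left _ (by omega)]
      simp

theorem exists_diag (u : ℕ → ℕ → ℝ) (hu0 : ∀ m k, 0 ≤ u m k)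
    (hu : ∀ m, Tendsto (u m) atTop (𝓝 0)) :
    ∃ M : ℕ → ℕ, Tendsto M atTop atTop ∧ Tendsto (fun k => u (M k) k) atTop (𝓝 0) := by
  classical
  let P : ℕ → ℕ → Prop := fun k m => u m k ≤ 1 / ((m : ℝ) + 1)
  let M : ℕ → ℕ := fun k => Nat.findGreatest (P k) k
  have key : ∀ m, ∀ᶠ k in atTop, m ≤ M k ∧ u (M k) k ≤ 1 / ((M k : ℝ) + 1) := by
    intro m
    have h1 : ∀ᶠ k in atTop, u m k ≤ 1 / ((m : ℝ) + 1) :=
      (hu m).eventually (ge_mem_nhds (by positivity))
    filter_upwards [h1, eventually_ge_atTop m] with k hk hmk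
    exact ⟨Nat.le_findGreatest hmk hk, Nat.findGreatest_spec (P := P k) hmk hk⟩
  have hM : Tendsto M atTop atTop :=
    tendsto_atTop.mpr fun m => (key m).mono fun k hk => hk.1
  refine ⟨M, hM, ?_⟩
  have h2 : Tendsto (fun k => 1 / ((M k : ℝ) + 1)) atTop (𝓝 0) :=
    tendsto_one_div_add_atTop_nhds_zero_nat.comp hM
  exact squeeze_zero' (Eventually.of_forall fun k => hu0 _ _) ((key 0).mono fun k hk => hk.2) h2

theorem tendsto_aux (η : ℝ) (hη : 1 < η) (m : ℕ) :
    Tendsto (fun k : ℕ => (1 + m * (2 * (k : ℝ) + 3) ^ m) / η ^ k) atTop (𝓝 0) := by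
  have h0 := tendsto_pow_const_div_const_pow_of_one_lt 0 hη
  have h1 := (tendsto_pow_const_div_const_pow_of_one_lt m hη).const_mul ((m : ℝ) * 5 ^ m)
  have h2 := h0.add h1
  simp only [pow_zero, mul_zero, add_zero] at h2
  refine squeeze_zero' (Eventually.of_forall fun k => by positivity) ?_ h2
  filter_upwards [eventually_ge_atTop 1] with k hk
  have hk' : (1 : ℝ) ≤ k := by exact_mod_cast hk
  have h3 : (2 * (k : ℝ) + 3) ^ m ≤ (5 * k) ^ m := by
    gcongr
    linarith
  rw [mul_pow] at h3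
  rw [← mul_div_assoc, ← add_div, mul_assoc]
  gcongr

/-- The set of frequencies `{0, ± a_0, …, ± a_{n-1}}`. -/
def freq (a : ℕ → ℕ) (n : ℕ) : Finset ℤ :=
  insert 0 ((range n).image (fun j => (a j : ℤ)) ∪ (range n).image (fun j => -(a j : ℤ)))

theorem card_freq (a : ℕ → ℕ) (n : ℕ) : (freq a n).card ≤ 2 * n + 1 := by
  refine (card_insert_le _ _).trans ?_
  have h1 := card_union_le ((range n).image (fun j => (a j : ℤ)))
    ((range n).image (fun j => -(a j : ℤ)))
  have h2 : ((range n).image (fun j => (a j : ℤ))).card ≤ n :=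
    card_image_le.trans (card_range n).le
  have h3 : ((range n).image (fun j => -(a j : ℤ))).card ≤ n :=
    card_image_le.trans (card_range n).le
  omega

theorem freq_succ (a : ℕ → ℕ) (n : ℕ) :
    freq a (n + 1) = insert (a n : ℤ) (insert (-(a n : ℤ)) (freq a n)) := by
  ext z
  simp only [freq, range_add_one, image_insert, mem_insert, mem_union]
  tauto

theorem neg_freq (a : ℕ → ℕ) (n : ℕ) : -freq a n = freq a n := by
  ext z
  simp only [freq, Finset.mem_neg', mem_insert, mem_union, mem_image, neg_eq_zero, neg_inj]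
  constructor
  · rintro (h | ⟨j, hj, h⟩ | ⟨j, hj, h⟩)
    · exact Or.inl h
    · exact Or.inr (Or.inr ⟨j, hj, by omega⟩)
    · exact Or.inr (Or.inl ⟨j, hj, h⟩)
  · rintro (h | ⟨j, hj, h⟩ | ⟨j, hj, h⟩)
    · exact Or.inl h
    · exact Or.inr (Or.inr ⟨j, hj, h⟩)
    · exact Or.inr (Or.inl ⟨j, hj, by omega⟩)

theorem exists_seq (η : ℝ) (hη : 1 < η) :
    ∃ a : ℕ → ℕ, StrictMono a ∧ (∀ k, 0 < a k) ∧
      Tendsto (fun k => (a (k + 1) : ℝ) / a k) atTop (𝓝 η) ∧
      ∀ m : ℕ, ∃ k₀, ∀ k ≥ k₀, ∀ c : ℤ, 1 ≤ c → c ≤ m → c * a k ∉ m • freq a k := by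
  classical
  obtain ⟨M, hM, hMu⟩ := exists_diag
    (fun m k => (1 + m * (2 * (k : ℝ) + 3) ^ m) / η ^ k) (fun m k => by positivity)
    (tendsto_aux η hη)
  choose g hg1 hg2 hg3 using exists_step η (by linarith)
  let st : ℕ → ℕ × Finset ℤ := fun n => Nat.rec (1, {0})
    (fun k p => (g p.1 (insert (p.1 : ℤ) (insert (-(p.1 : ℤ)) p.2)) (M k),
      insert (p.1 : ℤ) (insert (-(p.1 : ℤ)) p.2))) n
  let a : ℕ → ℕ := fun n => (st n).1
  have hF : ∀ n, (st n).2 = freq a n := by
    intro n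
    induction n with
    | zero => simp [st, freq]
    | succ n ih => rw [freq_succ, ← ih]
  have ha : ∀ n, a (n + 1) = g (a n) (freq a (n + 1)) (M n) := by
    intro n
    rw [freq_succ, ← hF]
  have ha0 : a 0 = 1 := rfl
  have hlow : ∀ n, η * a n < a (n + 1) := fun n => by rw [ha]; exact hg1 _ _ _
  have hpow : ∀ n, η ^ n ≤ a n := by
    intro n
    induction n with
    | zero => simp [ha0]
    | succ n ih =>
      have := hlow n
      rw [pow_succ]
      nlinarith
  have hpos : ∀ n, (0 : ℝ) < a n := fun n => lt_of_lt_of_le (by positivity) (hpow n)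
  refine ⟨a, strictMono_nat_of_lt_succ fun n => ?_, fun n => by exact_mod_cast hpos n, ?_, ?_⟩
  · have h1 := hlow n
    have h2 := hpos n
    have : (a n : ℝ) < a (n + 1) := by nlinarith
    exact_mod_cast this
  · have h1 := hMu.const_add η
    rw [add_zero] at h1
    refine tendsto_of_tendsto_of_tendsto_of_le_of_le tendsto_const_nhds h1 (fun n => ?_)
      (fun n => ?_)
    · simp only
      rw [le_div_iff₀ (hpos n)]
      exact (hlow n).le
    · simp only
      have h2 := hg2 (a n) (freq a (n + 1)) (M n)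
      rw [← ha] at h2
      have h3 : ((freq a (n + 1)).card : ℝ) ≤ 2 * n + 3 := by
        have := card_freq a (n + 1)
        exact_mod_cast this
      have h4 : (1 + M n * ((freq a (n + 1)).card : ℝ) ^ M n) / a n ≤
          (1 + M n * (2 * (n : ℝ) + 3) ^ M n) / η ^ n := by
        have := hpow n
        gcongr
      refine le_trans ?_ (add_le_add_right h4 η)
      rw [div_le_iff₀ (hpos n), add_mul, div_mul_cancel₀ _ (hpos n).ne']
      linarith
  · intro m
    obtain ⟨k₀, hk₀⟩ := eventually_atTop.mp (tendsto_atTop.mp hM m)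
    refine ⟨k₀ + 1, fun k hk c hc1 hcm hmem => ?_⟩
    obtain ⟨n, rfl⟩ : ∃ n, k = n + 1 := ⟨k - 1, by omega⟩
    have h1 := hk₀ n (by omega)
    have h2 := hg3 (a n) (freq a (n + 1)) (M n) c hc1 (hcm.trans (by exact_mod_cast h1))
    rw [← ha] at h2
    exact h2 (Finset.nsmul_subset_nsmul_right (by simp [freq]) h1 hmem)

end Pool.Agent.Lib.MP_5c394f_nt
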