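import Mathlib

/-!
Trigonometric polynomials with prescribed frequency sets on the unit interval.
-/

set_option autoImplicit false

open MeasureTheory Set
open scoped Pointwise Real

namespace Pool.Agent.Lib.MP_5c394f_nt

/-- Lebesgue measure on the unit interval. -/
noncomputable abbrev leb : Measure ℝ := volume.restrict (Icc (0 : ℝ) 1)

instance : IsProbabilityMeasure leb := ⟨by simp⟩

theorem integrable_of_continuous {E : Type*} [NormedAddCommGroup E] {f : ℝ → E}
    (hf : Continuous f) : Integrable f leb :=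
  hf.continuousOn.integrableOn_compact isCompact_Icc

theorem integral_leb {E : Type*} [NormedAddCommGroup E] [NormedSpace ℝ E] (f : ℝ → E) :
    ∫ ω, f ω ∂leb = ∫ ω in (0 : ℝ)..1, f ω := by
  rw [intervalIntegral.integral_of_le zero_le_one, integral_Icc_eq_integral_Ioc]

/-- The exponential with integer frequency `z`. -/
noncomputable def ex (z : ℤ) (ω : ℝ) : ℂ := Complex.exp (2 * π * Complex.I * z * ω)

theorem ex_add (x y : ℤ) : ex (x + y) = ex x * ex y := by
  ext ω
  simp only [ex, Pi.mul_apply, ← Complex.exp_add]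
  congr 1
  push_cast
  ring

theorem ex_zero : ex 0 = 1 := by
  ext ω
  simp [ex]

theorem continuous_ex (z : ℤ) : Continuous (ex z) := by
  unfold ex
  fun_prop

theorem integral_ex (z : ℤ) : ∫ ω, ex z ω ∂leb = if z = 0 then 1 else 0 := by
  split_ifs with h
  · simp [h, ex_zero]
  · rw [integral_leb]
    unfold ex
    have hz : (2 * π * Complex.I * z : ℂ) ≠ 0 := by
      have : (π : ℂ) ≠ 0 := by exact_mod_cast Real.pi_ne_zero
      have : (z : ℂ) ≠ 0 := by exact_mod_cast h
      simp [*]
    rw [integral_exp_mul_complex hz]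
    have h1 : Complex.exp (2 * π * Complex.I * z * (1 : ℝ)) = 1 := by
      rw [← Complex.exp_int_mul_two_pi_mul_I z]
      congr 1
      push_cast
      ring
    rw [h1]
    simp

/-- Trigonometric polynomials with frequencies in `A`. -/
noncomputable def Spec (A : Set ℤ) : Submodule ℂ (ℝ → ℂ) := Submodule.span ℂ (ex '' A)

theorem ex_mem {A : Set ℤ} {z : ℤ} (hz : z ∈ A) : ex z ∈ Spec A :=
  Submodule.subset_span ⟨z, hz, rfl⟩

theorem spec_mono {A B : Set ℤ} (h : A ⊆ B) : Spec A ≤ Spec B :=
  Submodule.span_mono (image_mono h)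

theorem spec_continuous {A : Set ℤ} {f : ℝ → ℂ} (hf : f ∈ Spec A) : Continuous f := by
  induction hf using Submodule.span_induction with
  | mem x hx => obtain ⟨z, _, rfl⟩ := hx; exact continuous_ex z
  | zero => exact continuous_zero
  | add x y _ _ hx hy => exact hx.add hy
  | smul a x _ hx => exact hx.const_smul a

theorem spec_mul {A B : Set ℤ} {f g : ℝ → ℂ} (hf : f ∈ Spec A) (hg : g ∈ Spec B) :
    f * g ∈ Spec (A + B) := by
  induction hf using Submodule.span_induction with
  | mem x hx =>
    obtain ⟨z, hz, rfl⟩ := hx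
    induction hg using Submodule.span_induction with
    | mem y hy =>
      obtain ⟨w, hw, rfl⟩ := hy
      rw [← ex_add]
      exact ex_mem (add_mem_add hz hw)
    | zero => simp
    | add x y _ _ hx hy => rw [mul_add]; exact add_mem hx hy
    | smul a x _ hx => rw [mul_smul_comm]; exact Submodule.smul_mem _ _ hx
  | zero => simp
  | add x y _ _ hx hy => rw [add_mul]; exact add_mem hx hy
  | smul a x _ hx => rw [smul_mul_assoc]; exact Submodule.smul_mem _ _ hx

theorem spec_pow {A : Set ℤ} {f : ℝ → ℂ} (hf : f ∈ Spec A) (n : ℕ) :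
    f ^ n ∈ Spec (n • A) := by
  induction n with
  | zero =>
    rw [pow_zero, ← ex_zero]
    exact ex_mem (by simp)
  | succ n ih =>
    rw [pow_succ, succ_nsmul]
    exact spec_mul ih hf

theorem integral_mul_of_spec {A B : Set ℤ} (h : ∀ x ∈ A, ∀ y ∈ B, x + y = 0 → y = 0)
    {f g : ℝ → ℂ} (hf : f ∈ Spec A) (hg : g ∈ Spec B) :
    ∫ ω, f ω * g ω ∂leb = (∫ ω, f ω ∂leb) * ∫ ω, g ω ∂leb := by
  induction hf using Submodule.span_induction with
  | mem x hx =>
    obtain ⟨z, hz, rfl⟩ := hx
    induction hg using Submodule.span_induction with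
    | mem y hy =>
      obtain ⟨w, hw, rfl⟩ := hy
      have h1 : ∫ ω, ex z ω * ex w ω ∂leb = ∫ ω, ex (z + w) ω ∂leb := by
        rw [ex_add]; rfl
      rw [h1, integral_ex, integral_ex, integral_ex]
      by_cases hw0 : w = 0
      · simp [hw0]
      · have : z + w ≠ 0 := fun h0 => hw0 (h z hz w hw h0)
        simp [hw0, this]
    | zero => simp
    | add x y hx' hy' hx hy =>
      have cx := spec_continuous hx'
      have cy := spec_continuous hy'
      have ce := continuous_ex z
      simp only [Pi.add_apply, mul_add]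
      rw [integral_add (integrable_of_continuous (by fun_prop))
        (integrable_of_continuous (by fun_prop)),
        integral_add (integrable_of_continuous cx) (integrable_of_continuous cy), hx, hy, mul_add]
    | smul a x _ hx =>
      simp only [Pi.smul_apply, smul_eq_mul, mul_left_comm _ a]
      rw [integral_const_mul, integral_const_mul, hx]
      ring
  | zero => simp
  | add x y hx' hy' hx hy =>
    have cx := spec_continuous hx'
    have cy := spec_continuous hy'
    have cg := spec_continuous hg
    simp only [Pi.add_apply, add_mul]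
    rw [integral_add (integrable_of_continuous (by fun_prop))
      (integrable_of_continuous (by fun_prop)),
      integral_add (integrable_of_continuous cx) (integrable_of_continuous cy), hx, hy, add_mul]
  | smul a x _ hx =>
    simp only [Pi.smul_apply, smul_eq_mul, mul_assoc]
    rw [integral_const_mul, integral_const_mul, hx]
    ring

theorem cos_mem {A : Set ℤ} {a : ℕ} (h1 : (a : ℤ) ∈ A) (h2 : -(a : ℤ) ∈ A) :
    (fun ω : ℝ => ((Real.cos (2 * π * a * ω) : ℝ) : ℂ)) ∈ Spec A := by
  have : (fun ω : ℝ => ((Real.cos (2 * π * a * ω) : ℝ) : ℂ)) =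
      (1 / 2 : ℂ) • (ex a + ex (-a)) := by
    ext ω
    simp only [Complex.ofReal_cos, Complex.cos, Pi.smul_apply, Pi.add_apply, ex, smul_eq_mul]
    push_cast
    rw [div_eq_mul_inv, mul_comm]
    congr 2
    · norm_num
    · congr 1; ring
    · congr 1; ring
  rw [this]
  exact Submodule.smul_mem _ _ (add_mem (ex_mem h1) (ex_mem h2))

theorem mem_nsmul_pair {a : ℤ} (l : ℕ) {y : ℤ} (hy : y ∈ l • ({a, -a} : Set ℤ)) :
    ∃ c : ℤ, |c| ≤ l ∧ y = c * a := by
  induction l generalizing y with
  | zero =>
    refine ⟨0, by simp, ?_⟩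
    simpa using hy
  | succ l ih =>
    rw [succ_nsmul] at hy
    obtain ⟨u, hu, v, hv, rfl⟩ := hy
    obtain ⟨c, hc, rfl⟩ := ih hu
    rw [abs_le] at hc
    rcases hv with rfl | rfl
    · refine ⟨c + 1, ?_, by ring⟩
      rw [abs_le]; push_cast; constructor <;> linarith
    · refine ⟨c - 1, ?_, by ring⟩
      rw [abs_le]; push_cast; constructor <;> linarith

/-- Factorisation of mixed moments. -/
theorem moment_factor (F : Finset ℤ) (h0 : (0 : ℤ) ∈ F) (hsymm : -F = F) (X : ℝ → ℝ)
    (hX : (fun ω => (X ω : ℂ)) ∈ Spec F) (a m : ℕ)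
    (hav : ∀ c : ℤ, 1 ≤ c → c ≤ m → c * a ∉ m • F) (i l : ℕ) (hil : i + l ≤ m) :
    ∫ ω, X ω ^ i * Real.cos (2 * π * a * ω) ^ l ∂leb =
      (∫ ω, X ω ^ i ∂leb) * ∫ ω, Real.cos (2 * π * a * ω) ^ l ∂leb := by
  have h1 := spec_pow hX i
  have h2 := spec_pow (cos_mem (A := {(a : ℤ), -(a : ℤ)}) (a := a) (by simp) (by simp)) l
  have key := integral_mul_of_spec (by
    intro x hx y hy hxy
    obtain ⟨c, hc, rfl⟩ := mem_nsmul_pair l hy
    have hx' : x ∈ m • F := by
      apply Finset.nsmul_subset_nsmul_right h0 (show i ≤ m by omega)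
      rw [← Finset.mem_coe, Finset.coe_nsmul]
      exact hx
    have hnx : -x ∈ m • F := by
      rw [← hsymm, neg_nsmul]
      exact Finset.neg_mem_neg hx'
    rw [abs_le] at hc
    have hlm : (l : ℤ) ≤ m := by exact_mod_cast (show l ≤ m by omega)
    rcases lt_trichotomy c 0 with hc0 | hc0 | hc0
    · exfalso
      apply hav (-c) (by omega) (by omega)
      have : -c * a = x := by linarith
      rwa [this]
    · simp [hc0]
    · exfalso
      apply hav c (by omega) (by omega)
      have : c * a = -x := by linarith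
      rwa [this]) h1 h2
  simp only [Pi.pow_apply] at key
  apply Complex.ofReal_injective
  rw [Complex.ofReal_mul, ← integral_complex_ofReal, ← integral_complex_ofReal,
    ← integral_complex_ofReal]
  simpa only [Complex.ofReal_mul, Complex.ofReal_pow] using key

end Pool.Agent.Lib.MP_5c394f_nt
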